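import Pool.Agent.W979.TE.Defs3
import Pool.Agent.W715.BC.Tools

set_option autoImplicit false

open Classical

namespace Pool.Agent.W374.TE3

open Pool.Agent.W715.BC Pool.Agent.W979.TE3

theorem pair_le {A B : Type} [Fintype A] [Fintype B] {r : A → B → Prop} {D K : ℕ}
    (hr : Reg r D K) (a : A) :
    (Finset.univ.filter (fun p : B × A => r a p.1 ∧ r p.2 p.1)).card ≤ (K * D) * (K * D) := by
  refine (card_filter_prod_le (fun (b : B) (a' : A) => r a b ∧ r a' b) (K * D)
    (fun b => r a b) ?_ (fun b a' h => h.1)).trans ?_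
  · intro b _
    refine (Finset.card_le_card ?_).trans (hr.ub b)
    intro a' ha'
    simp only [Finset.mem_filter, Finset.mem_univ, true_and] at ha' ⊢
    exact ha'.2
  · exact Nat.mul_le_mul_right _ (hr.ua a)

theorem gen_le {A B α I J : Type} [Fintype A] [Fintype B] [Fintype α] [Fintype I] [Fintype J]
    {r : A → B → Prop} {D K : ℕ} (hr : Reg r D K) (C0 : α → Prop) (c : α → A)
    (uu : α → (I → B × A) → J → A) :
    (Finset.univ.filter (fun z : α × (I → B × A) × (J → B × A) =>
      C0 z.1 ∧ (∀ i, r (c z.1) (z.2.1 i).1 ∧ r (z.2.1 i).2 (z.2.1 i).1) ∧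
        ∀ j, r (uu z.1 z.2.1 j) (z.2.2 j).1 ∧ r (z.2.2 j).2 (z.2.2 j).1)).card ≤
      (Finset.univ.filter (fun a => C0 a)).card *
        (((K * D) * (K * D)) ^ Fintype.card I * ((K * D) * (K * D)) ^ Fintype.card J) := by
  refine card_filter_prod_le (fun (a : α) (w : (I → B × A) × (J → B × A)) =>
    C0 a ∧ (∀ i, r (c a) (w.1 i).1 ∧ r (w.1 i).2 (w.1 i).1) ∧
        ∀ j, r (uu a w.1 j) (w.2 j).1 ∧ r (w.2 j).2 (w.2 j).1) _ (fun a => C0 a) ?_
        (fun a w h => h.1)
  intro a _
  refine (card_filter_prod_le (fun (f : I → B × A) (g : J → B × A) =>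
    C0 a ∧ (∀ i, r (c a) (f i).1 ∧ r (f i).2 (f i).1) ∧
        ∀ j, r (uu a f j) (g j).1 ∧ r (g j).2 (g j).1) (((K * D) * (K * D)) ^ Fintype.card J)
        (fun f => ∀ i, r (c a) (f i).1 ∧ r (f i).2 (f i).1) ?_ (fun f g h => h.2.1)).trans ?_
  · intro f _
    refine (Finset.card_le_card ?_).trans (card_pi_le (I := J) (β := B × A)
      (fun j p => r (uu a f j) p.1 ∧ r p.2 p.1) ((K * D) * (K * D)) (fun j => pair_le hr _))
    intro g hg
    simp only [Finset.mem_filter, Finset.mem_univ, true_and] at hg ⊢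
    exact hg.2.2
  · exact Nat.mul_le_mul_right _ (card_pi_le (I := I) (β := B × A)
      (fun _ p => r (c a) p.1 ∧ r p.2 p.1) ((K * D) * (K * D)) (fun j => pair_le hr _))

theorem exp_eq {s q P : ℕ} (hs : 1 ≤ s) :
    ((P * P) ^ (s - 1) * (P * P) ^ (s * q)) = P ^ (2 * hh s q - 2 * (q + 1)) := by
  rw [← pow_add, ← pow_two, ← pow_mul]
  congr 1
  obtain ⟨m, rfl⟩ : ∃ m, s = m + 1 := ⟨s - 1, by omega⟩
  unfold hh
  have e : 2 * (m + 1 + (m + 1 + 1) * q) - 2 * (q + 1) = 2 * (m + (m + 1) * q) := by
    have : 2 * (m + 1 + (m + 1 + 1) * q) = 2 * (m + (m + 1) * q) + 2 * (q + 1) := by ring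
    rw [this, Nat.add_sub_cancel]
  rw [e]
  congr 1

theorem card_ne (s : ℕ) (i : Fin s) : Fintype.card {i' : Fin s // i' ≠ i} = s - 1 := by
  rw [Fintype.card_subtype_compl, Fintype.card_fin]
  simp

theorem card_ne_opt (s : ℕ) (i : Fin s) :
    Fintype.card {x : Option (Fin s) // x ≠ some i} = s := by
  rw [Fintype.card_subtype_compl, Fintype.card_option, Fintype.card_fin]
  simp

/-- centre positions, first kind -/
noncomputable def uu1 {A B : Type} {s q : ℕ} (i : Fin s)
    (σ : A × (Fin (q + 1) → B) × (Fin (q + 1) → A))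
    (f : {i' : Fin s // i' ≠ i} → B × A) : ({x : Option (Fin s) // x ≠ some i} × Fin q) → A :=
  fun p => match p.1 with
    | ⟨none, _⟩ => σ.2.2 0
    | ⟨some j, h⟩ => (f ⟨j, fun e => h (by rw [e])⟩).2

/-- centre positions, second kind -/
noncomputable def uu2 {A B : Type} {s q : ℕ} (i : Fin s)
    (σ : A × (Fin (q + 1) → B) × (Fin (q + 1) → A))
    (f : {i' : Fin s // i' ≠ i} → B × A) : (Fin s × Fin q) → A :=
  fun p => if h : p.1 = i then σ.2.2 0 else (f ⟨p.1, h⟩).2

theorem pMST : S_MST := by
  intro s q K A B _ _ r D E i hr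
  have hs : 1 ≤ s := by have := i.2; omega
  constructor
  · have h := gen_le (I := {i' : Fin s // i' ≠ i})
      (J := {x : Option (Fin s) // x ≠ some i} × Fin q) hr
      (fun z : A × (Fin (q + 1) → B) × (Fin (q + 1) → A) =>
        (∀ k, r z.1 (z.2.1 k) ∧ r (z.2.2 k) (z.2.1 k)) ∧ E z.1 z.2.1 z.2.2)
      (fun z => z.2.2 0) (uu1 i)
    rw [card_ne, Fintype.card_prod, card_ne_opt, Fintype.card_fin, exp_eq hs, mul_comm] at h
    refine le_trans ?_ (h.trans (Nat.mul_le_mul_left _ (Finset.card_le_card (t := Finset.univ.filter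
      (fun z : A × (Fin (q + 1) → B) × (Fin (q + 1) → A) =>
        (∀ k, r z.1 (z.2.1 k) ∧ r (z.2.2 k) (z.2.1 k)) ∧ E z.1 z.2.1 z.2.2)) (fun z hz => by
        simp only [Finset.mem_filter, Finset.mem_univ, true_and] at hz ⊢
        exact hz))))
    refine Finset.card_le_card_of_injOn (fun z : Cop A B s q =>
      ((z.1 (some i), (Fin.cons (z.2.2.1 i) (z.2.2.2 (some i)) : Fin (q + 1) → B),
        (Fin.cons (z.1 none) (z.2.1 (some i)) : Fin (q + 1) → A)),
        (fun i' : {i' : Fin s // i' ≠ i} => (z.2.2.1 i'.1, z.1 (some i'.1))),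
        (fun p : {x : Option (Fin s) // x ≠ some i} × Fin q =>
          (z.2.2.2 p.1.1 p.2, z.2.1 p.1.1 p.2)))) ?_ ?_
    · intro z hz
      simp only [Finset.coe_filter, Finset.mem_univ, true_and, Set.mem_ofPred_eq] at hz ⊢
      obtain ⟨⟨h1, h2, h3, h4⟩, hE⟩ := hz
      refine ⟨⟨?_, hE⟩, ?_, ?_⟩
      · intro k
        refine Fin.cases ?_ (fun l => ?_) k
        · simp only [Fin.cons_zero]
          exact ⟨h2 i, h1 i⟩
        · simp only [Fin.cons_succ]
          exact ⟨h3 (some i) l, h4 (some i) l⟩
      · intro i'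
        simp only [Fin.cons_zero]
        exact ⟨h1 i'.1, h2 i'.1⟩
      · rintro ⟨⟨x, hx⟩, l⟩
        cases x with
        | none =>
          simp only [uu1, Fin.cons_zero]
          exact ⟨h3 none l, h4 none l⟩
        | some j =>
          simp only [uu1]
          exact ⟨h3 (some j) l, h4 (some j) l⟩
    · rintro ⟨u, ρ, β, γ⟩ - ⟨u', ρ', β', γ'⟩ - he
      simp only [Prod.mk.injEq] at he
      obtain ⟨⟨e1, e2, e3⟩, e4, e5⟩ := he
      have a1 : u none = u' none := by simpa using congrFun e3 0
      have a2 : ∀ l, ρ (some i) l = ρ' (some i) l := fun l => by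
        simpa using congrFun e3 (Fin.succ l)
      have a3 : β i = β' i := by simpa using congrFun e2 0
      have a4 : ∀ l, γ (some i) l = γ' (some i) l := fun l => by
        simpa using congrFun e2 (Fin.succ l)
      have a5 : ∀ j, j ≠ i → β j = β' j ∧ u (some j) = u' (some j) := fun j hj => by
        have := congrFun e4 ⟨j, hj⟩
        simpa using this
      have a6 : ∀ x, x ≠ some i → ∀ l, γ x l = γ' x l ∧ ρ x l = ρ' x l := fun x hx l => by
        have := congrFun e5 (⟨x, hx⟩, l)
        simpa using this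
      have b1 : u = u' := by
        funext x
        cases x with
        | none => exact a1
        | some j =>
          by_cases hj : j = i
          · rw [hj]; exact e1
          · exact (a5 j hj).2
      have b2 : β = β' := by
        funext j
        by_cases hj : j = i
        · rw [hj]; exact a3
        · exact (a5 j hj).1
      have b3 : ρ = ρ' := by
        funext x l
        by_cases hx : x = some i
        · rw [hx]; exact a2 l
        · exact (a6 x hx l).2
      have b4 : γ = γ' := by
        funext x l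
        by_cases hx : x = some i
        · rw [hx]; exact a4 l
        · exact (a6 x hx l).1
      rw [b1, b2, b3, b4]
  · have h := gen_le (I := {i' : Fin s // i' ≠ i})
      (J := Fin s × Fin q) hr
      (fun z : A × (Fin (q + 1) → B) × (Fin (q + 1) → A) =>
        (∀ k, r z.1 (z.2.1 k) ∧ r (z.2.2 k) (z.2.1 k)) ∧ E z.1 z.2.1 z.2.2)
      (fun z => z.1) (uu2 i)
    rw [card_ne, Fintype.card_prod, Fintype.card_fin, Fintype.card_fin, exp_eq hs, mul_comm] at h
    refine le_trans ?_ (h.trans (Nat.mul_le_mul_left _ (Finset.card_le_card (t := Finset.univ.filter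
      (fun z : A × (Fin (q + 1) → B) × (Fin (q + 1) → A) =>
        (∀ k, r z.1 (z.2.1 k) ∧ r (z.2.2 k) (z.2.1 k)) ∧ E z.1 z.2.1 z.2.2)) (fun z hz => by
        simp only [Finset.mem_filter, Finset.mem_univ, true_and] at hz ⊢
        exact hz))))
    refine Finset.card_le_card_of_injOn (fun z : Cop A B s q =>
      ((z.1 none, (Fin.cons (z.2.2.1 i) (z.2.2.2 none) : Fin (q + 1) → B),
        (Fin.cons (z.1 (some i)) (z.2.1 none) : Fin (q + 1) → A)),
        (fun i' : {i' : Fin s // i' ≠ i} => (z.2.2.1 i'.1, z.1 (some i'.1))),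
        (fun p : Fin s × Fin q =>
          (z.2.2.2 (some p.1) p.2, z.2.1 (some p.1) p.2)))) ?_ ?_
    · intro z hz
      simp only [Finset.coe_filter, Finset.mem_univ, true_and, Set.mem_ofPred_eq] at hz ⊢
      obtain ⟨⟨h1, h2, h3, h4⟩, hE⟩ := hz
      refine ⟨⟨?_, hE⟩, ?_, ?_⟩
      · intro k
        refine Fin.cases ?_ (fun l => ?_) k
        · simp only [Fin.cons_zero]
          exact ⟨h1 i, h2 i⟩
        · simp only [Fin.cons_succ]
          exact ⟨h3 none l, h4 none l⟩
      · intro i'
        exact ⟨h1 i'.1, h2 i'.1⟩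
      · rintro ⟨j, l⟩
        by_cases hj : j = i
        · subst hj
          simp only [uu2, Fin.cons_zero, dif_pos]
          exact ⟨h3 (some j) l, h4 (some j) l⟩
        · simp only [uu2, dif_neg hj]
          exact ⟨h3 (some j) l, h4 (some j) l⟩
    · rintro ⟨u, ρ, β, γ⟩ - ⟨u', ρ', β', γ'⟩ - he
      simp only [Prod.mk.injEq] at he
      obtain ⟨⟨e1, e2, e3⟩, e4, e5⟩ := he
      have a1 : u (some i) = u' (some i) := by simpa using congrFun e3 0
      have a2 : ∀ l, ρ none l = ρ' none l := fun l => by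
        simpa using congrFun e3 (Fin.succ l)
      have a3 : β i = β' i := by simpa using congrFun e2 0
      have a4 : ∀ l, γ none l = γ' none l := fun l => by
        simpa using congrFun e2 (Fin.succ l)
      have a5 : ∀ j, j ≠ i → β j = β' j ∧ u (some j) = u' (some j) := fun j hj => by
        have := congrFun e4 ⟨j, hj⟩
        simpa using this
      have a6 : ∀ j l, γ (some j) l = γ' (some j) l ∧ ρ (some j) l = ρ' (some j) l :=
        fun j l => by
        have := congrFun e5 (j, l)
        simpa using this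
      have b1 : u = u' := by
        funext x
        cases x with
        | none => exact e1
        | some j =>
          by_cases hj : j = i
          · rw [hj]; exact a1
          · exact (a5 j hj).2
      have b2 : β = β' := by
        funext j
        by_cases hj : j = i
        · rw [hj]; exact a3
        · exact (a5 j hj).1
      have b3 : ρ = ρ' := by
        funext x l
        cases x with
        | none => exact a2 l
        | some j => exact (a6 j l).2
      have b4 : γ = γ' := by
        funext x l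
        cases x with
        | none => exact a4 l
        | some j => exact (a6 j l).1
      rw [b1, b2, b3, b4]

end Pool.Agent.W374.TE3
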